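import Pool.Agent.Helper98.GY.Iso
import Pool.Agent.Helper53.TWR.Base

/-!
Row MHQ of the sheet GY (MP_7a8f48_an): the hulls of the ergodic joinings are transported along
the isomorphism of the base to a tower.
-/

set_option linter.unusedSectionVars false

open MeasureTheory Filter Topology Finset
open scoped ComplexConjugate

namespace Pool.Agent.Helper53.GY

open Pool.Agent.Helper16.AZ (T mm)
open Pool.Agent.Helper98.TW (SA AM UF BF Sys IA Inc C0 CM ON Rk TI Tow MR NE SS JN JJ Lm LQ cm BB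
  am_iff am_of am_congr am_conj am_mul lq_of_le lm_cm ST_INV)
open Pool.Agent.Helper98.GY (Mdl Ism JY JJY ST_MHQ)
open Pool.Agent.Helper40.TWM (HQ)
open Pool.Agent.Helper53.TWR (ce_am am_ce ce_lq am_cm)

section gen

variable {Y X : Type} [mY : MeasurableSpace Y] [mX : MeasurableSpace X] {ν : Measure Y}
  {μ : Measure X} {π : Y → X} {ℰ : SA X}

/-- transport of null sets -/
theorem ae_back (hπ : MeasurePreserving π ν μ) {P : X → Prop} (hP : MeasurableSet {x | P x})
    (h : ∀ᵐ y ∂ν, P (π y)) : ∀ᵐ x ∂μ, P x := by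
  rw [← hπ.map_eq, ae_map_iff hπ.measurable.aemeasurable hP]
  exact h

theorem fac {g : Y → ℂ} (hg : Measurable[cm π ℰ] g) :
    ∃ g' : X → ℂ, Measurable[ℰ] g' ∧ g = g' ∘ π :=
  Measurable.exists_eq_measurable_comp (mY := ℰ) hg

/-- functions of `π` which are measurable for the inverse image of a sigma algebra -/
theorem am_back (hπ : MeasurePreserving π ν μ) (hE : Lm ℰ) {F : X → ℂ} (hF : Measurable F)
    (h : AM ν (cm π ℰ) fun y => F (π y)) : AM μ ℰ F := by
  obtain ⟨g, hg, hFg⟩ := am_iff.1 h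
  obtain ⟨g', hg', rfl⟩ := fac hg
  refine am_iff.2 ⟨g', hg', ?_⟩
  have hm : Measurable g' := hg'.mono hE le_rfl
  exact ae_back hπ (measurableSet_eq_fun hF hm) hFg

/-- transport of conditional expectations -/
theorem ce_cm [IsProbabilityMeasure ν] [IsProbabilityMeasure μ] (hπ : MeasurePreserving π ν μ)
    (hE : Lm ℰ) {F : X → ℂ} (hF : Integrable F μ) :
    ν[fun y => F (π y)|cm π ℰ] =ᵐ[ν] fun y => (μ[F|ℰ]) (π y) := by
  have hle : @LE.le (MeasurableSpace X) _ ℰ mX := hE
  have hleY : @LE.le (MeasurableSpace Y) _ (cm π ℰ) mY := lm_cm hπ.measurable hE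
  have : IsFiniteMeasure (μ.trim hle) := isFiniteMeasure_trim hle
  have : IsFiniteMeasure (ν.trim hleY) := isFiniteMeasure_trim hleY
  have : SigmaFinite (μ.trim hle) := IsFiniteMeasure.toSigmaFinite _
  have : SigmaFinite (ν.trim hleY) := IsFiniteMeasure.toSigmaFinite _
  have hfT : Integrable (fun y => F (π y)) ν := hπ.integrable_comp_of_integrable hF
  have hg : Integrable (fun y => (μ[F|ℰ]) (π y)) ν :=
    hπ.integrable_comp_of_integrable integrable_condExp
  refine (ae_eq_condExp_of_forall_setIntegral_eq hleY hfT (fun s _ _ => hg.integrableOn) ?_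
    ?_).symm
  · intro s hs _
    obtain ⟨t, ht, rfl⟩ := hs
    have ht' : MeasurableSet t := hle t ht
    have h1 : ∀ g : X → ℂ, Integrable g μ → ∫ y in π ⁻¹' t, g (π y) ∂ν = ∫ x in t, g x ∂μ := by
      intro g hgi
      rw [← integral_indicator (hπ.measurable ht'), ← integral_indicator ht']
      have : (π ⁻¹' t).indicator (fun y => g (π y)) = (t.indicator g) ∘ π := by
        ext x; exact Set.indicator_comp_right π
      rw [this]
      have h2 := integral_map (μ := ν) (φ := π) hπ.measurable.aemeasurable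
        (f := t.indicator g) (by
          rw [hπ.map_eq]; exact (hgi.indicator ht').aestronglyMeasurable)
      rw [hπ.map_eq] at h2
      exact h2.symm
    exact (h1 _ integrable_condExp).trans ((setIntegral_condExp hle hF ht).trans (h1 _ hF).symm)
  · exact (stronglyMeasurable_condExp.comp_measurable
      (comap_measurable (m := ℰ) π)).aestronglyMeasurable

theorem int_comp (hπ : MeasurePreserving π ν μ) {E : Type*} [NormedAddCommGroup E]
    [NormedSpace ℝ E] {g : X → E} (hg : AEStronglyMeasurable g μ) :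
    ∫ y, g (π y) ∂ν = ∫ x, g x ∂μ := by
  have h2 := integral_map (μ := ν) (φ := π) hπ.measurable.aemeasurable
    (f := g) (by rw [hπ.map_eq]; exact hg)
  rw [hπ.map_eq] at h2
  exact h2.symm

end gen

section lq

variable {Ω : Type} [m0 : MeasurableSpace Ω] {μ : Measure Ω} [IsProbabilityMeasure μ]
  {𝒜 C : SA Ω} {F : Ω → ℂ}

/-- conditional expectations for sigma algebras which are equal up to null sets -/
theorem ce_eq (hA : Lm 𝒜) (hC : Lm C) (h1 : LQ μ C 𝒜) (h2 : LQ μ 𝒜 C) (hF : Integrable F μ) :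
    μ[F|C] =ᵐ[μ] μ[F|𝒜] := by
  have hle : @LE.le (MeasurableSpace Ω) _ 𝒜 m0 := hA
  have : IsFiniteMeasure (μ.trim hle) := isFiniteMeasure_trim hle
  have : SigmaFinite (μ.trim hle) := IsFiniteMeasure.toSigmaFinite _
  have hi : Integrable (μ[F|𝒜]) μ := integrable_condExp
  have h3 : μ[(fun x => F x - (μ[F|𝒜]) x)|𝒜] =ᵐ[μ] 0 := by
    have e1 := condExp_sub hF hi 𝒜
    have e2 := ce_am hA hi am_ce
    filter_upwards [e1, e2] with x h1 h2
    have h1' : (μ[(fun x => F x - (μ[F|𝒜]) x)|𝒜]) x = (μ[F|𝒜] - μ[μ[F|𝒜]|𝒜]) x := h1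
    rw [h1']
    simp [h2]
  have h4 := ce_lq hA hC h1 (hF.sub hi) h3
  have e1 := condExp_sub hF hi C
  have e2 := ce_am hC hi (h2 _ am_ce)
  filter_upwards [h4, e1, e2] with x h4 h5 h6
  have h5' : (μ[(fun x => F x - (μ[F|𝒜]) x)|C]) x = (μ[F|C] - μ[μ[F|𝒜]|C]) x := h5
  have h4' : (μ[(fun x => F x - (μ[F|𝒜]) x)|C]) x = 0 := h4
  rw [h4'] at h5'
  simp only [Pi.sub_apply, h6] at h5'
  exact (sub_eq_zero.1 h5'.symm)

end lq

section main

variable {Y : Type} [mY : MeasurableSpace Y] [StandardBorelSpace Y] {ν : Measure Y}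
  [IsProbabilityMeasure ν] {S S' : Y → Y} {N : ℕ}
  {f f' : Fin N → T N → UnitAddCircle} {ψ : Y → T N} {lev : Fin N → ℕ}

theorem eqv' (hI : Ism S ν f ψ) (hS : Sys ν S S') (hti : TI lev f f') :
    ∀ᵐ y ∂ν, ψ (S' y) = SS f' (ψ y) := by
  have h1 := hS.mp'.quasiMeasurePreserving.ae hI.eqv
  filter_upwards [h1, hS.r] with y h1 h2
  rw [h2] at h1
  rw [h1, hti.l]

/-- unimodular functions are functions of `ψ` -/
theorem uf_lift (hI : Ism S ν f ψ) {g : Y → ℂ} (hg : UF ν g) :
    ∃ g' : T N → ℂ, UF (mm N) g' ∧ g =ᵐ[ν] fun y => g' (ψ y) := by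
  obtain ⟨g', hm, h⟩ := hI.lift hg.1.aestronglyMeasurable
  refine ⟨g', ⟨hm, ?_⟩, h⟩
  refine ae_back hI.mp (measurableSet_eq_fun hm.norm measurable_const) ?_
  filter_upwards [h, hg.2] with y h1 h2
  rw [← h1, h2]

/-- transport of increments -/
theorem inc_iff (hI : Ism S ν f ψ) (hS : MeasurePreserving S ν ν) (hf : Measurable (SS f))
    {C : SA (T N)} (hC : Lm C) {g' : T N → ℂ} {g : Y → ℂ} (hg' : Measurable g')
    (h : g =ᵐ[ν] fun y => g' (ψ y)) (n : ℕ) :
    Inc ν (cm ψ C) S^[n] g ↔ Inc (mm N) C (SS f)^[n] g' := by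
  have hm : Measurable fun x => g' ((SS f)^[n] x) * conj (g' x) :=
    (hg'.comp (hf.iterate n)).mul (Complex.continuous_conj.measurable.comp hg')
  have h1 : (fun y => g (S^[n] y) * conj (g y)) =ᵐ[ν]
      fun y => (fun x => g' ((SS f)^[n] x) * conj (g' x)) (ψ y) := by
    have h2 := (hS.iterate n).quasiMeasurePreserving.ae h
    filter_upwards [h, h2, hI.iter hS n] with y h1 h2 h3
    rw [h2, h1, h3]
  constructor
  · intro hi
    exact am_back hI.mp hC hm (am_congr hi h1)
  · intro hi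
    exact am_congr (am_cm hI.mp hi) h1.symm

/-- transport of the properties of the hull -/
theorem hq (hI : Ism S ν f ψ) (hS : Sys ν S S') (hti : TI lev f f') (hf : Measurable (SS f))
    (hf' : Measurable (SS f')) {p q R₀ : ℕ} {C : SA (T N)}
    (h : HQ (mm N) (SS f) (SS f') p q R₀ C) : HQ ν S S' p q R₀ (cm ψ C) := by
  have hC : Lm C := h.ia.1
  have hCY : Lm (cm ψ C) := lm_cm hI.mp.measurable hC
  refine ⟨⟨hCY, ?_⟩, ?_, ?_, ?_⟩
  · intro F hF
    obtain ⟨g, hg, hFg⟩ := am_iff.1 hF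
    obtain ⟨g', hg', rfl⟩ := fac hg
    have h1 := h.ia.2 g' (am_of hg')
    refine ⟨am_congr (am_cm hI.mp h1.1) ?_, am_congr (am_cm hI.mp h1.2) ?_⟩
    · have h2 := hS.mp.quasiMeasurePreserving.ae hFg
      filter_upwards [hI.eqv, h2] with y h3 h4
      rw [h4, ← h3]; rfl
    · have h2 := hS.mp'.quasiMeasurePreserving.ae hFg
      filter_upwards [eqv' hI hS hti, h2] with y h3 h4
      rw [h4, ← h3]; rfl
  · intro g hg hinc M hM hMq hgM
    obtain ⟨g', hu, hgg⟩ := uf_lift hI hg
    have h1 := (inc_iff hI hS.mp hf hC hu.1 hgg p).1 hinc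
    have h2 : AM (mm N) C fun x => g' x ^ M := by
      refine am_back hI.mp hC (hu.1.pow_const M) (am_congr hgM ?_)
      filter_upwards [hgg] with y h3
      rw [h3]
    exact am_congr (am_cm hI.mp (h.c g' hu h1 M hM hMq h2)) hgg.symm
  · intro g hg hinc
    obtain ⟨g', hu, hgg⟩ := uf_lift hI hg
    have h1 := (inc_iff hI hS.mp hf hC hu.1 hgg p).1 hinc
    exact (inc_iff hI hS.mp hf hC hu.1 hgg 1).2 (h.s g' hu h1)
  · intro G hG hG0 hrk
    set L := Lp.compMeasurePreservingₗᵢ (E := ℂ) (p := 2) ℂ ψ hI.mp with hL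
    have hLc : ∀ g : Lp ℂ 2 (mm N), L g =ᵐ[ν] fun y => g (ψ y) := fun g =>
      Lp.coeFn_compMeasurePreserving g hI.mp
    have hsurj : ∀ g : Lp ℂ 2 ν, ∃ g' : Lp ℂ 2 (mm N), L g' = g := by
      intro g
      obtain ⟨g', hm, h1⟩ := hI.lift (Lp.aestronglyMeasurable g)
      have h2 : MemLp g' 2 (mm N) := by
        rw [← hI.mp.map_eq, memLp_map_measure_iff hm.aestronglyMeasurable
          hI.mp.measurable.aemeasurable]
        exact (memLp_congr_ae h1).1 (Lp.memLp g)
      refine ⟨h2.toLp g', ?_⟩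
      refine Lp.ext ?_
      have h3 := hI.mp.quasiMeasurePreserving.ae h2.coeFn_toLp
      filter_upwards [hLc (h2.toLp g'), h1, h3] with y e1 e2 e3
      rw [e1, e2, e3]
    set G' : Submodule ℂ (Lp ℂ 2 (mm N)) := G.comap L.toLinearMap with hG'
    have hmem : ∀ g, g ∈ G' ↔ L g ∈ G := fun g => Iff.rfl
    have hCM : CM (mm N) C (SS f)^[p] (fun _ => 1) G' := by
      refine ⟨⟨hG.closed.preimage L.continuous, ?_⟩, ?_⟩
      · intro g hg c hc hcb g'' hg''
        refine hG.mul (L g) hg (fun y => c (ψ y)) (am_cm hI.mp hc) ?_ (L g'') ?_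
        · obtain ⟨B, hB⟩ := hcb
          exact ⟨B, hI.mp.quasiMeasurePreserving.ae hB⟩
        · have h1 := hI.mp.quasiMeasurePreserving.ae hg''
          filter_upwards [hLc g'', hLc g, h1] with y e1 e2 e3
          rw [e1, e3, e2]
      · intro g hg g'' hg''
        refine hG.comp (L g) hg (L g'') ?_
        have h1 := hI.mp.quasiMeasurePreserving.ae hg''
        have h2 := (hS.mp.iterate p).quasiMeasurePreserving.ae (hLc g)
        filter_upwards [hLc g'', h2, h1, hI.iter hS.mp p] with y e1 e2 e3 e4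
        rw [e1, e3, e2, e4]
    have hne : G' ≠ ⊥ := by
      intro hb
      refine hG0 ((Submodule.eq_bot_iff G).2 fun g hg => ?_)
      obtain ⟨g', rfl⟩ := hsurj g
      have : g' ∈ G' := hg
      rw [hb, Submodule.mem_bot] at this
      rw [this, map_zero]
    have hr : Rk (mm N) C G' (R₀ ^ 2) := by
      intro m e he hon
      refine hrk m (fun a => L (e a)) (fun a => he a) ?_
      intro a b
      have hint : Integrable (fun x => (inner ℂ (e b x) (e a x) : ℂ)) (mm N) :=
        L2.integrable_inner (e b) (e a)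
      have h1 := ce_cm hI.mp hC hint
      have h2 : ν[(fun y => (inner ℂ ((L (e b)) y) ((L (e a)) y) : ℂ))|cm ψ C] =ᵐ[ν]
          ν[(fun y => (inner ℂ (e b (ψ y)) (e a (ψ y)) : ℂ))|cm ψ C] := by
        refine condExp_congr_ae ?_
        filter_upwards [hLc (e a), hLc (e b)] with y e1 e2
        rw [e1, e2]
      have h3 := hI.mp.quasiMeasurePreserving.ae (hon a b)
      filter_upwards [h1, h2, h3] with y e1 e2 e3
      rw [e2, e1, e3]
    obtain ⟨ψ', hu, hinc, g', hg', hgψ⟩ := h.m G' hCM hne hr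
    refine ⟨fun y => ψ' (ψ y), ⟨hu.1.comp hI.mp.measurable,
      hI.mp.quasiMeasurePreserving.ae hu.2⟩,
      (inc_iff hI hS.mp hf hC hu.1 Filter.EventuallyEq.rfl p).2 hinc, L g', hg', ?_⟩
    have h1 := hI.mp.quasiMeasurePreserving.ae hgψ
    filter_upwards [hLc g', h1] with y e1 e2
    rw [e1, e2]

theorem st_MHQ (hV : ST_INV) (hM : Pool.Agent.Helper40.TWM.ST_MHQ) : ST_MHQ := by
  intro Y _ _ ν _ S S' hS hmdl R₀ k G ε hε hG
  obtain ⟨N, lev, f, ψ, ht, hr, hne, hI⟩ := hmdl
  obtain ⟨f', hti⟩ := hV N lev f ht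
  have hf : Measurable (SS f) := by
    refine measurable_pi_lambda _ fun i => ?_
    exact (measurable_pi_apply i).add (ht.meas i)
  have hf' : Measurable (SS f') := by
    refine measurable_pi_lambda _ fun i => ?_
    exact (measurable_pi_apply i).add (hti.t'.meas i)
  have hmem : ∀ {F : Y → ℂ} {F' : T N → ℂ}, Measurable F' → F =ᵐ[ν] (fun y => F' (ψ y)) →
      MemLp F 2 ν → MemLp F' 2 (mm N) := by
    intro F F' hm h1 h2
    rw [← hI.mp.map_eq, memLp_map_measure_iff hm.aestronglyMeasurable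
      hI.mp.measurable.aemeasurable]
    exact (memLp_congr_ae h1).1 h2
  choose G' hG'm hGG' using fun i => hI.lift (hG i).aestronglyMeasurable
  have hG' : ∀ i, MemLp (G' i) 2 (mm N) := fun i => hmem (hG'm i) (hGG' i) (hG i)
  obtain ⟨q₀, hq₀⟩ := hM N lev f f' hti hr hne R₀ k G' ε hε hG'
  refine ⟨q₀, fun q hq hqp p hp hpq κ hκ => ?_⟩
  have hκprob := hκ.prob
  obtain ⟨hκ', hmp⟩ := hI.jn hS.mp hf hκ
  have hκ'prob := hκ'.prob
  obtain ⟨C, hC, hC1, hC2⟩ := hq₀ q hq hqp p hp hpq _ hκ'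
  have hCL : Lm C := hC.ia.1
  have hCY : Lm (cm ψ C) := lm_cm hI.mp.measurable hCL
  refine ⟨cm ψ C, Pool.Agent.Helper53.GY.hq hI hS hti hf hf' hC, ?_, ?_⟩
  · intro F hFm hF2 hF0
    obtain ⟨F', hF'm, hFF'⟩ := hI.lift hFm.aestronglyMeasurable
    have hF' : MemLp F' 2 (mm N) := hmem hF'm hFF' hF2
    have hF'i : Integrable F' (mm N) := hF'.integrable (by norm_num)
    have h1 : (mm N)[F'|C] =ᵐ[mm N] 0 := by
      have hle : @LE.le (MeasurableSpace (T N)) _ C _ := hCL
      have hms : MeasurableSet {x | ((mm N)[F'|C]) x = (0 : T N → ℂ) x} :=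
        measurableSet_eq_fun (stronglyMeasurable_condExp.mono hle).measurable measurable_const
      refine ae_back hI.mp hms ?_
      have e1 := ce_cm hI.mp hCL hF'i
      have e2 : ν[F|cm ψ C] =ᵐ[ν] ν[(fun y => F' (ψ y))|cm ψ C] := condExp_congr_ae hFF'
      filter_upwards [e1, e2, hF0] with y e1 e2 e3
      rw [← e1, ← e2, e3]; rfl
    have h2 := hC1 F' hF'm hF' h1
    have h3 : ∫ x, ‖F' x‖ ^ 2 ∂(mm N) = ∫ y, ‖F y‖ ^ 2 ∂ν := by
      rw [← int_comp hI.mp (hF'm.norm.pow_const 2).aestronglyMeasurable]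
      refine integral_congr_ae ?_
      filter_upwards [hFF'] with y hy
      simp only [hy]
    rw [h3] at h2
    refine le_trans (le_of_eq ?_) h2
    -- transport of `JJ`
    have hfst : MeasurePreserving (Prod.fst : Y × Y → Y) κ ν := ⟨measurable_fst, hκ.fst⟩
    have hsnd : MeasurePreserving (Prod.snd : Y × Y → Y) κ ν := ⟨measurable_snd, hκ.snd⟩
    have hfst' : MeasurePreserving (Prod.fst : T N × T N → T N) (κ.map (Prod.map ψ ψ)) (mm N) :=
      ⟨measurable_fst, hκ'.fst⟩
    have hBB : Lm (BB N) := lm_cm (ℰ := (inferInstance : MeasurableSpace (T N)))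
      measurable_snd le_rfl
    have hi : Integrable (fun z : T N × T N => F' z.1) (κ.map (Prod.map ψ ψ)) :=
      hfst'.integrable_comp_of_integrable hF'i
    have e1 := ce_cm hmp hBB hi
    set B : SA (Y × Y) := MeasurableSpace.comap Prod.snd (inferInstance : MeasurableSpace Y)
      with hB
    have hBL : Lm B := (measurable_snd).comap_le
    have hB' : Lm (cm (Prod.map ψ ψ) (BB N)) := lm_cm hmp.measurable hBB
    have l1 : LQ κ (cm (Prod.map ψ ψ) (BB N)) B := by
      refine lq_of_le ?_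
      have h5 : @LE.le (MeasurableSpace (Y × Y)) _
          (MeasurableSpace.comap (Prod.map ψ ψ) (MeasurableSpace.comap Prod.snd
            (inferInstance : MeasurableSpace (T N)))) B := by
        rw [MeasurableSpace.comap_comp]
        have : (Prod.snd : T N × T N → T N) ∘ Prod.map ψ ψ = ψ ∘ Prod.snd := rfl
        rw [this, ← MeasurableSpace.comap_comp]
        exact MeasurableSpace.comap_mono hI.mp.measurable.comap_le
      exact h5
    have l2 : LQ κ B (cm (Prod.map ψ ψ) (BB N)) := by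
      intro g hg
      obtain ⟨g1, hg1, hgg⟩ := am_iff.1 hg
      obtain ⟨g2, hg2, rfl⟩ := hg1.exists_eq_measurable_comp
      obtain ⟨g3, hg3, h6⟩ := hI.lift hg2.aestronglyMeasurable
      have h7 : AM κ (cm (Prod.map ψ ψ) (BB N))
          (fun z => (fun w : T N × T N => g3 w.2) (Prod.map ψ ψ z)) :=
        am_cm hmp (am_of (hg3.comp (comap_measurable (Prod.snd : T N × T N → T N))))
      refine am_congr h7 ?_
      have h8 := hsnd.quasiMeasurePreserving.ae h6
      filter_upwards [hgg, h8] with z e3 e4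
      rw [e3]
      change g3 (ψ z.2) = g2 z.2
      rw [e4]
    have hFi : Integrable (fun z : Y × Y => F z.1) κ :=
      hfst.integrable_comp_of_integrable (hF2.integrable (by norm_num))
    have e2 : κ[(fun z => F z.1)|B] =ᵐ[κ] κ[(fun z => F z.1)|cm (Prod.map ψ ψ) (BB N)] :=
      (ce_eq hBL hB' l1 l2 hFi).symm
    have e3 : κ[(fun z => F z.1)|cm (Prod.map ψ ψ) (BB N)] =ᵐ[κ]
        κ[(fun z => (fun w : T N × T N => F' w.1) (Prod.map ψ ψ z))|cm (Prod.map ψ ψ) (BB N)] := by
      refine condExp_congr_ae ?_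
      have h8 := hfst.quasiMeasurePreserving.ae hFF'
      filter_upwards [h8] with z e4
      rw [e4]; rfl
    unfold JJY JJ
    have hms : AEStronglyMeasurable (fun w => ‖((κ.map (Prod.map ψ ψ))[fun w : T N × T N =>
        F' w.1|BB N]) w‖ ^ 2) (κ.map (Prod.map ψ ψ)) := by
      have hle : @LE.le (MeasurableSpace (T N × T N)) _ (BB N) _ := hBB
      exact ((stronglyMeasurable_condExp.mono hle).norm.pow 2).aestronglyMeasurable
    rw [← int_comp hmp hms]
    refine integral_congr_ae ?_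
    filter_upwards [e1, e2, e3] with z e4 e5 e6
    rw [e5, e6, e4]
  · intro i
    have hi : Integrable (G' i) (mm N) := (hG' i).integrable (by norm_num)
    have e1 := ce_cm hI.mp hCL hi
    have e2 : ν[G i|cm ψ C] =ᵐ[ν] ν[(fun y => G' i (ψ y))|cm ψ C] := condExp_congr_ae (hGG' i)
    have e3 : ∫ y, G i y ∂ν = ∫ x, G' i x ∂(mm N) := by
      rw [← int_comp hI.mp (hG'm i).aestronglyMeasurable]
      exact integral_congr_ae (hGG' i)
    refine le_trans (le_of_eq ?_) (hC2 i)
    have hms : AEStronglyMeasurable (fun x => ‖((mm N)[G' i|C]) x - ∫ y, G' i y ∂(mm N)‖ ^ 2)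
        (mm N) := by
      have hle : @LE.le (MeasurableSpace (T N)) _ C _ := hCL
      exact ((((stronglyMeasurable_condExp (f := G' i) (m := C) (μ := mm N)).mono hle).sub
        stronglyMeasurable_const).norm.pow 2).aestronglyMeasurable
    rw [← int_comp hI.mp hms]
    refine integral_congr_ae ?_
    filter_upwards [e1, e2] with y e4 e5
    rw [e5, e4, e3]

end main

end Pool.Agent.Helper53.GY
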